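import Pool.Agent.Y152.Pm.Lem

/-!
# Alternating sums of products of two families of functions with vanishing permanents
-/

namespace Pool.Agent.Y152.VC

set_option linter.unusedSectionVars false

open Finset Equiv Pool.Agent.Y152.Pm

variable {ι : Type*} [Fintype ι] [DecidableEq ι] {R : Type*} [CommRing R] [Algebra ℚ R]

lemma inv_mem {S : Finset ι} {τ : Perm ι} (hτ : τ ∈ SymOn S) : τ⁻¹ ∈ SymOn S :=
  mem_symOn.2 fun z hz => by
    have := mem_symOn.1 hτ z hz
    calc τ⁻¹ z = τ⁻¹ (τ z) := by rw [this]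
      _ = z := τ.symm_apply_apply z

/-- Let the symmetric group act on the finite set `Ω`, let `s` be a function on `Ω` which is
multiplied by the sign, and let `b`, `c` be functions killed by all symmetrizers on `k + 1` and
`l + 1` letters of a set of at least `k l + 1` letters. Then `∑ s b c = 0`. -/
theorem sum_zero {Ω : Type*} [Fintype Ω] (act : Ω → Perm ι → Ω)
    (act_one : ∀ ω, act ω 1 = ω) (act_mul : ∀ ω σ τ, act (act ω σ) τ = act ω (σ * τ))
    (s : Ω → ℤ) (hs : ∀ ω τ, s (act ω τ) = (Perm.sign τ : ℤ) * s ω) {b c : Ω → R} {k l : ℕ}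
    {T : Finset ι} (hk : k * l + 1 ≤ T.card)
    (hb : ∀ S ⊆ T, ∀ ω, S.card = k + 1 → ∑ τ ∈ SymOn S, b (act ω τ) = 0)
    (hc : ∀ S ⊆ T, ∀ ω, S.card = l + 1 → ∑ τ ∈ SymOn S, c (act ω τ) = 0) :
    ∑ ω, s ω • (b ω * c ω) = 0 := by
  classical
  let h : Perm ι → R := fun ρ => ∑ ω, s ω • (b (act ω ρ) * c ω)
  let h' : Perm ι → R := fun ρ => if ρ ∈ SymOn T then h ρ else 0
  have hmul : ∀ {S : Finset ι}, S ⊆ T → ∀ {τ : Perm ι}, τ ∈ SymOn S → ∀ x : Perm ι,
      (x * τ ∈ SymOn T ↔ x ∈ SymOn T) := by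
    intro S hST τ hτ x
    have h1 : ∀ z, z ∉ T → τ z = z := fun z hz => mem_symOn.1 hτ z fun h2 => hz (hST h2)
    constructor
    · intro h2
      refine mem_symOn.2 fun z hz => ?_
      have h3 := mem_symOn.1 h2 z hz
      change x (τ z) = z at h3
      rwa [h1 z hz] at h3
    · intro h2
      refine mem_symOn.2 fun z hz => ?_
      change x (τ z) = z
      rw [h1 z hz, mem_symOn.1 h2 z hz]
  have h1 := eq_zero_of_killed k l T h' hk ?_ ?_ 1
  · have h2 : (1 : Perm ι) ∈ SymOn T := mem_symOn.2 fun z _ => rfl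
    simpa [h', h, h2, act_one] using h1
  · intro S hST hS x
    by_cases hx : x ∈ SymOn T
    · have h2 : ∀ τ ∈ SymOn S, h' (x * τ) = h (x * τ) := fun τ hτ =>
        if_pos ((hmul hST hτ x).2 hx)
      rw [sum_congr rfl h2]
      simp only [h]
      rw [sum_comm]
      refine sum_eq_zero fun ω _ => ?_
      rw [← smul_sum, ← sum_mul]
      have h2 := hb S hST (act ω x) hS
      simp only [act_mul] at h2
      rw [h2, zero_mul, smul_zero]
    · refine sum_eq_zero fun τ hτ => ?_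
      exact if_neg fun h2 => hx ((hmul hST hτ x).1 h2)
  · intro S hST hS x
    by_cases hx : x ∈ SymOn T
    · have h2 : ∀ τ ∈ SymOn S, (Perm.sign τ : ℤ) • h' (x * τ) =
          (Perm.sign τ : ℤ) • h (x * τ) := fun τ hτ => by
        rw [show h' (x * τ) = h (x * τ) from if_pos ((hmul hST hτ x).2 hx)]
      rw [sum_congr rfl h2]
      simp only [h, smul_sum]
      have h2 : ∀ τ ∈ SymOn S, ∑ ω, (Perm.sign τ : ℤ) • s ω • (b (act ω (x * τ)) * c ω) =
          ∑ ω, s ω • (b (act ω x) * c (act ω (x * τ⁻¹ * x⁻¹))) := by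
        intro τ _
        have e0 : ∀ ω, act (act ω (x * τ * x⁻¹)) (x * τ⁻¹ * x⁻¹) = ω := fun ω => by
          rw [act_mul, show x * τ * x⁻¹ * (x * τ⁻¹ * x⁻¹) = 1 by group, act_one]
        have e0' : ∀ ω, act (act ω (x * τ⁻¹ * x⁻¹)) (x * τ * x⁻¹) = ω := fun ω => by
          rw [act_mul, show x * τ⁻¹ * x⁻¹ * (x * τ * x⁻¹) = 1 by group, act_one]
        refine Fintype.sum_equiv ⟨fun ω => act ω (x * τ * x⁻¹), fun ω => act ω (x * τ⁻¹ * x⁻¹),
          e0, e0'⟩ _ _ fun ω => ?_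
        rw [Equiv.coe_fn_mk]
        have e1 : Perm.sign (x * τ * x⁻¹) = Perm.sign τ := by
          simp only [Perm.sign_mul, Perm.sign_inv]
          rw [mul_comm (Perm.sign x) (Perm.sign τ), mul_assoc, Int.units_mul_self, mul_one]
        have e2 : x * τ * x⁻¹ * x = x * τ := by group
        rw [hs, e1, act_mul, e2, e0, mul_smul]
      rw [sum_congr rfl h2, sum_comm]
      refine sum_eq_zero fun ω _ => ?_
      rw [← smul_sum, ← mul_sum]
      have h3 : ∑ τ ∈ SymOn S, c (act ω (x * τ⁻¹ * x⁻¹)) = 0 := by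
        have hxT : S.map x.toEmbedding ⊆ T := by
          intro y hy
          rw [mem_map] at hy
          obtain ⟨z, hz, rfl⟩ := hy
          exact apply_mem hx (hST hz)
        have h4 := hc (S.map x.toEmbedding) hxT ω (by rw [card_map, hS])
        rw [sum_conj _ x] at h4
        have h5 : (S.map x.toEmbedding).map x⁻¹.toEmbedding = S := by
          ext y
          simp only [mem_map, exists_exists_and_eq_and]
          constructor
          · rintro ⟨z, hz, rfl⟩
            change x⁻¹ (x z) ∈ S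
            have h6 : x⁻¹ (x z) = z := x.symm_apply_apply z
            rw [h6]
            exact hz
          · intro hy
            exact ⟨y, hy, x.symm_apply_apply y⟩
        rw [h5] at h4
        rw [← h4]
        exact sum_nbij' (fun τ => τ⁻¹) (fun τ => τ⁻¹) (fun τ hτ => inv_mem hτ)
          (fun τ hτ => inv_mem hτ) (fun τ _ => inv_inv τ) (fun τ _ => inv_inv τ) (fun τ _ => rfl)
      rw [h3, mul_zero, smul_zero]
    · refine sum_eq_zero fun τ hτ => ?_
      rw [show h' (x * τ) = 0 from if_neg fun h2 => hx ((hmul hST hτ x).1 h2), smul_zero]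

/-- Products over `T` of functions of letters, under permutations of a subset of `T`. -/
lemma prod_split {X : Type*} (b : ι → X → R) {S T : Finset ι} (hST : S ⊆ T) (x : ι → X)
    {τ : Perm ι} (hτ : τ ∈ SymOn S) :
    ∏ i ∈ T, b i (x (τ i)) = (∏ i ∈ S, b i (x (τ i))) * ∏ i ∈ T \ S, b i (x i) := by
  rw [← prod_sdiff hST, mul_comm]
  congr 1
  refine prod_congr rfl fun i hi => ?_
  rw [mem_symOn.1 hτ i (mem_sdiff.1 hi).2]

/-- Let the entries in the rows `i ∈ T` of a matrix be `∑_m b_i(x_m(j)) c_i(y_m(j))`, where the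
permanents of size `k + 1` of the `b_i`, of size `l + 1` of the `c_i`, vanish. If `T` has at least
`k l + 1` elements, the determinant vanishes. -/
theorem det_zero {X Y J : Type*} [Fintype J] [DecidableEq J] {b : ι → X → R} {c : ι → Y → R}
    {k l : ℕ} {T : Finset ι} (hk : k * l + 1 ≤ T.card)
    (hb : ∀ S ⊆ T, ∀ x : ι → X, S.card = k + 1 → ∑ τ ∈ SymOn S, ∏ i ∈ S, b i (x (τ i)) = 0)
    (hc : ∀ S ⊆ T, ∀ y : ι → Y, S.card = l + 1 → ∑ τ ∈ SymOn S, ∏ i ∈ S, c i (y (τ i)) = 0)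
    (x : J → ι → X) (y : J → ι → Y) (E : ι → ι → R)
    (hE : ∀ i ∈ T, ∀ j, E i j = ∑ m, b i (x m j) * c i (y m j)) :
    ∑ σ : Perm ι, (Perm.sign σ : ℤ) • ∏ i, E i (σ i) = 0 := by
  classical
  have hT : T.Nonempty := card_pos.1 (by omega)
  rcases isEmpty_or_nonempty J with hJ | hJ
  · obtain ⟨t, ht⟩ := hT
    refine sum_eq_zero fun σ _ => ?_
    rw [prod_eq_zero (mem_univ t) (by rw [hE t ht]; simp), smul_zero]
  -- the entries as sums over `J` in all rows
  set q : ℚ := ((Fintype.card J : ℕ) : ℚ)⁻¹ with hq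
  have hq1 : (Fintype.card J : ℚ) * q = 1 := by
    rw [hq]
    exact mul_inv_cancel₀ (Nat.cast_ne_zero.2 Fintype.card_ne_zero)
  set e : ι → J → ι → R := fun i m j => if i ∈ T then b i (x m j) * c i (y m j) else q • E i j
    with he
  have hEe : ∀ i j, E i j = ∑ m, e i m j := by
    intro i j
    by_cases hi : i ∈ T
    · rw [hE i hi]
      exact sum_congr rfl fun m _ => by simp only [he, if_pos hi]
    · simp only [he, if_neg hi]
      rw [sum_const, card_univ, ← Nat.cast_smul_eq_nsmul ℚ, smul_smul, hq1, one_smul]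
  have h1 : ∀ σ : Perm ι, ∏ i, E i (σ i) = ∑ f : ι → J, ∏ i, e i (f i) (σ i) := by
    intro σ
    simp only [hEe]
    rw [prod_univ_sum, Fintype.piFinset_univ]
  simp only [h1, smul_sum]
  rw [← sum_product', univ_product_univ]
  let B : Perm ι × (ι → J) → R := fun ω => ∏ i ∈ T, b i (x (ω.2 i) (ω.1 i))
  let D : Perm ι × (ι → J) → R := fun ω => (∏ i ∈ T, c i (y (ω.2 i) (ω.1 i))) *
    ∏ i ∈ Tᶜ, e i (ω.2 i) (ω.1 i)
  have h2 : ∀ ω : Perm ι × (ι → J), ∏ i, e i (ω.2 i) (ω.1 i) = B ω * D ω := by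
    intro ω
    rw [← prod_mul_prod_compl T]
    simp only [B, D]
    rw [← mul_assoc, ← prod_mul_distrib]
    congr 1
    exact prod_congr rfl fun i hi => by simp only [he, if_pos hi]
  simp only [h2]
  refine sum_zero (T := T) (k := k) (l := l)
    (fun (ω : Perm ι × (ι → J)) τ => (ω.1 * τ, fun i => ω.2 (τ i)))
    (fun ω => rfl) (fun ω σ τ => rfl) (fun ω => (Perm.sign ω.1 : ℤ)) ?_ hk ?_ ?_
  · intro ω τ
    simp only [Perm.sign_mul, Units.val_mul]
    rw [mul_comm]
  · intro S hST ω hS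
    have h3 : ∀ τ ∈ SymOn S, B (ω.1 * τ, fun i => ω.2 (τ i)) =
        (∏ i ∈ S, b i ((fun j => x (ω.2 j) (ω.1 j)) (τ i))) *
          ∏ i ∈ T \ S, b i ((fun j => x (ω.2 j) (ω.1 j)) i) := fun τ hτ =>
      prod_split b hST (fun j => x (ω.2 j) (ω.1 j)) hτ
    rw [sum_congr rfl h3, ← sum_mul]
    exact (congrArg (fun t => t * _) (hb S hST (fun j => x (ω.2 j) (ω.1 j)) hS)).trans (zero_mul _)
  · intro S hST ω hS
    have h3 : ∀ τ ∈ SymOn S, D (ω.1 * τ, fun i => ω.2 (τ i)) =
        (∏ i ∈ S, c i ((fun j => y (ω.2 j) (ω.1 j)) (τ i))) *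
          ((∏ i ∈ T \ S, c i ((fun j => y (ω.2 j) (ω.1 j)) i)) *
            ∏ i ∈ Tᶜ, e i (ω.2 i) (ω.1 i)) := fun τ hτ => by
      rw [← mul_assoc, ← prod_split c hST (fun j => y (ω.2 j) (ω.1 j)) hτ]
      simp only [D]
      congr 1
      refine prod_congr rfl fun i hi => ?_
      have h4 : τ i = i := mem_symOn.1 hτ i fun h5 => (mem_compl.1 hi) (hST h5)
      change e i (ω.2 (τ i)) (ω.1 (τ i)) = _
      rw [h4]
    rw [sum_congr rfl h3, ← sum_mul]
    exact (congrArg (fun t => t * _) (hc S hST (fun j => y (ω.2 j) (ω.1 j)) hS)).trans (zero_mul _)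

/-- Sums over the permutations supported on `S` as sums over the permutations of `S`. -/
lemma sum_symOn_eq {M : Type*} [AddCommMonoid M] (S : Finset ι) (F : Perm ι → M) :
    ∑ τ ∈ SymOn S, F τ = ∑ τ : Perm {i // i ∈ S}, F (Perm.ofSubtype τ) := by
  symm
  refine Finset.sum_bij (fun τ _ => Perm.ofSubtype τ) ?_ ?_ ?_ ?_
  · intro τ _
    exact mem_symOn.2 fun z hz => Perm.ofSubtype_apply_of_not_mem τ hz
  · intro τ _ ρ _ h5
    exact Perm.ofSubtype_injective h5
  · intro ρ hρ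
    have h6 : ∀ z, z ∈ S ↔ ρ z ∈ S := by
      intro z
      refine ⟨fun hz => apply_mem hρ hz, fun hz => ?_⟩
      by_contra hn
      rw [mem_symOn.1 hρ z hn] at hz
      exact hn hz
    refine ⟨ρ.subtypePerm (fun z => (h6 z).symm), mem_univ _, ?_⟩
    refine Perm.ofSubtype_subtypePerm (fun z => (h6 z).symm) fun z hz => ?_
    by_contra hn
    exact hz (mem_symOn.1 hρ z hn)
  · intro τ _
    rfl

/-- If the products of `m` values of one and the same additive function `g(a, ·)`, at one and the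
same point, vanish, then the permanents of size `m` of `(g(a_i, x_j))` vanish. -/
lemma per_zero' {Z X : Type*} [AddCommGroup Z] [AddCommGroup X] (g : Z →+ X →+ R) {m : ℕ}
    (h : ∀ (a : Z) (x : X), g a x ^ m = 0) (a : ι → Z) (x : ι → X) (S : Finset ι)
    (hS : S.card = m) : ∑ τ ∈ SymOn S, ∏ i ∈ S, g (a i) (x (τ i)) = 0 := by
  have e : Fin m ≃ {i // i ∈ S} := (Fintype.equivFinOfCardEq (by simp [hS])).symm
  have hcard : Fintype.card {i // i ∈ S} = m := by simp [hS]
  -- one point, different points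
  have h1 : ∀ (a : Z) (x : {i // i ∈ S} → X), ∏ j, g a (x j) = 0 := by
    intro a x
    have h2 := polar (fun _ : {i // i ∈ S} => g a) (fun x => by
      rw [prod_const, card_univ, hcard]; exact h a x) x
    have h3 : ∀ σ : Perm {i // i ∈ S}, ∏ j, g a (x (σ j)) = ∏ j, g a (x j) := fun σ =>
      Equiv.prod_comp σ (fun j => g a (x j))
    rw [sum_congr rfl fun σ _ => h3 σ, sum_const, card_univ, ← Nat.cast_smul_eq_nsmul ℚ] at h2
    exact (smul_eq_zero.1 h2).resolve_left (Nat.cast_ne_zero.2 Fintype.card_ne_zero)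
  -- different classes
  have h2 := polar (fun j : {i // i ∈ S} => (g.flip (x j))) (fun a => h1 a _)
    (fun j => a j)
  rw [sum_symOn_eq]
  have h3 : ∀ τ : Perm {i // i ∈ S}, ∏ i ∈ S, g (a i) (x (Perm.ofSubtype τ i)) =
      ∏ j : {i // i ∈ S}, g (a j) (x (τ j)) := by
    intro τ
    rw [← prod_coe_sort S]
    refine prod_congr rfl fun j _ => ?_
    rw [Perm.ofSubtype_apply_coe]
  rw [sum_congr rfl fun τ _ => h3 τ, ← h2]
  refine Fintype.sum_equiv (Equiv.inv _) _ _ fun τ => ?_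
  rw [Equiv.inv_apply]
  refine (Fintype.prod_equiv τ _ _ fun j => ?_)
  change g (a j) (x (τ j)) = g (a (τ⁻¹ (τ j))) (x (τ j))
  rw [show τ⁻¹ (τ j) = j from τ.symm_apply_apply j]

/-- The determinant of a matrix with entries `∑_m g(a_i, x_m(j)) g'(a'_i, x'_m(j))` in more than
`k l` rows vanishes. -/
theorem det_zero_pairing {Z X Z' X' J : Type*} [AddCommGroup Z] [AddCommGroup X]
    [AddCommGroup Z'] [AddCommGroup X'] [Fintype J] [DecidableEq J] (g : Z →+ X →+ R)
    (g' : Z' →+ X' →+ R) {k l : ℕ} (h : ∀ (a : Z) (x : X), g a x ^ (k + 1) = 0)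
    (h' : ∀ (a : Z') (x : X'), g' a x ^ (l + 1) = 0) {T : Finset ι} (hk : k * l + 1 ≤ T.card)
    (a : ι → Z) (a' : ι → Z') (x : J → ι → X) (x' : J → ι → X') (E : ι → ι → R)
    (hE : ∀ i ∈ T, ∀ j, E i j = ∑ m, g (a i) (x m j) * g' (a' i) (x' m j)) :
    ∑ σ : Perm ι, (Perm.sign σ : ℤ) • ∏ i, E i (σ i) = 0 :=
  det_zero (b := fun i x => g (a i) x) (c := fun i y => g' (a' i) y) hk
    (fun I _ x hI => per_zero' g h a x I hI) (fun I _ y hI => per_zero' g' h' a' y I hI) x x' E hE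

end Pool.Agent.Y152.VC
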