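import Pool.Agent.Y152.VC.Main

/-!
# Products of two curves
-/

open CategoryTheory AlgebraicGeometry

universe u v w

namespace Pool.Agent.Y152.VC

open Pool.Agent.H914 Pool.Agent.H914.VarClass Pool.Agent.H914.VarClass.Obj Pool.Agent.W492.BB
  Pool.Agent.W550.Corr Pool.Agent.TH133 Pool.Agent.Y152.AS Pool.Agent.Y110

set_option linter.unusedSectionVars false

variable {k : Type u} [Field k] {𝒱 : VarClass k} {C : TheoryData.{u, v, 0} 𝒱 ℚ}
  [hC : IsChowProj C] {S T P Q W X Y : 𝒱.Obj}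

lemma deg_cast {i j : ℤ} (h : i = j) {a : C.A X} (ha : a ∈ C.gr X i) : a ∈ C.gr X j := h ▸ ha

lemma graph_mem (f : X ⟶ Y) : C.graph f ∈ C.gr (X.prod Y) Y.dim := by
  have h1 := C.push_mem (Obj.lift (𝟙 X) f) (C.one_mem X)
  refine deg_cast ?_ h1
  rw [dim_prod]
  push_cast; ring

/-- A zero-cycle in the Albanese kernel has push-forward zero on curves. -/
lemma push_zero {z : C.A S} (hz : InAlbKer C z) (f : S ⟶ X) (hX : X.dim = 1) :
    C.push f z = 0 := by
  have h1 := hz.act_eq_zero X (C.graph f) (deg_cast (by rw [hX]; norm_num) (graph_mem f))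
  rwa [C.act_graph] at h1

lemma push_fst_ext {x : C.A X} {y : C.A Y} {q : ℚ} (hq : HasDegree C y q) :
    C.push (fst X Y) (C.ext x y) = q • x := by
  rw [TheoryData.ext, C.proj_left, (hq X).2, mul_smul_comm, mul_one]

lemma push_snd_ext {x : C.A X} {y : C.A Y} {q : ℚ} (hq : HasDegree C x q) :
    C.push (snd X Y) (C.ext x y) = q • y := by
  rw [TheoryData.ext, C.proj_right, (hq Y).1, smul_mul_assoc, one_mul]

lemma ext_smul_left (q : ℚ) (x : C.A X) (y : C.A Y) : C.ext (q • x) y = q • C.ext x y := by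
  rw [TheoryData.ext, TheoryData.ext, map_smul, smul_mul_assoc]

lemma ext_smul_right (q : ℚ) (x : C.A X) (y : C.A Y) : C.ext x (q • y) = q • C.ext x y := by
  rw [TheoryData.ext, TheoryData.ext, map_smul, mul_smul_comm]

lemma ext_sub_sub (x x' : C.A X) (y y' : C.A Y) : C.ext (x - x') (y - y') =
    C.ext x y - C.ext x' y - C.ext x y' + C.ext x' y' := by
  simp only [TheoryData.ext, map_sub, sub_mul, mul_sub]
  abel

lemma ext_add_left (x x' : C.A X) (y : C.A Y) : C.ext (x + x') y = C.ext x y + C.ext x' y := by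
  simp only [TheoryData.ext, map_add, add_mul]

lemma ext_add_right (x : C.A X) (y y' : C.A Y) : C.ext x (y + y') = C.ext x y + C.ext x y' := by
  simp only [TheoryData.ext, map_add, mul_add]

/-- The cover of a product of two curves by itself. -/
theorem gen_curves {J J' : 𝒱.Obj} [GroupLaw J] [GroupLaw J'] {j : X ⟶ J} {j' : Y ⟶ J'}
    (hX : IsJacobian C j) (hY : IsJacobian C j') (hs : SpannedByProducts C X Y)
    (z : C.A (X.prod Y)) (hz : InAlbKer C z) :
    z ∈ Submodule.span ℚ {c | Gen (m := 1) (fun _ => fst X Y ≫ j) (fun _ => snd X Y ≫ j') c} := by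
  -- degrees of zero-cycles
  have hdegX : ∀ x : C.A X, C.Deg 1 x → ∃ q, HasDegree C x q := fun x hx =>
    hC.degree X x (deg_cast (by rw [hX.dim_eq]; norm_num) hx)
  have hdegY : ∀ y : C.A Y, C.Deg 1 y → ∃ q, HasDegree C y q := fun y hy =>
    hC.degree Y y (deg_cast (by rw [hY.dim_eq]; norm_num) hy)
  obtain ⟨o, ho, ho1⟩ : ∃ o : C.A X, C.Deg 1 o ∧ HasDegree C o 1 := by
    obtain ⟨o, ho, h1, h2⟩ := hC.exists_deg_one X
    exact ⟨o, deg_cast (by rw [hX.dim_eq]; norm_num) ho, fun Z => by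
      rw [one_smul]; exact ⟨h2 Z, h1 Z⟩⟩
  obtain ⟨o', ho', ho1'⟩ : ∃ o : C.A Y, C.Deg 1 o ∧ HasDegree C o 1 := by
    obtain ⟨o, ho, h1, h2⟩ := hC.exists_deg_one Y
    exact ⟨o, deg_cast (by rw [hY.dim_eq]; norm_num) ho, fun Z => by
      rw [one_smul]; exact ⟨h2 Z, h1 Z⟩⟩
  -- the projection to the part of degree zero in both factors
  let E : C.A (X.prod Y) → C.A (X.prod Y) := fun z => z - C.ext o (C.push (snd X Y) z) -
    C.ext (C.push (fst X Y) z) o' + C.ext o (C.push (snd X Y) (C.ext (C.push (fst X Y) z) o'))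
  have hE : E z = z := by
    simp only [E]
    rw [push_zero hz _ hX.dim_eq, push_zero hz _ hY.dim_eq]
    simp only [TheoryData.ext, map_zero, mul_zero, zero_mul, sub_zero, add_zero]
  have hEadd : ∀ a b, E (a + b) = E a + E b := by
    intro a b
    simp only [E, map_add, ext_add_right, ext_add_left]
    abel
  have hEsmul : ∀ (t : ℚ) a, E (t • a) = t • E a := by
    intro t a
    simp only [E, map_smul, ext_smul_right, ext_smul_left, smul_sub, smul_add]
  rw [← hE]
  have hd : (X.prod Y).dim = 2 := by rw [dim_prod, hX.dim_eq, hY.dim_eq]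
  have h0 := hs z (deg_cast (by rw [hd]; norm_num) hz.deg)
  clear hE hz
  induction h0 using Submodule.span_induction with
  | mem c hc =>
    obtain ⟨x, y, hx, hy, rfl⟩ := hc
    obtain ⟨p, hp⟩ := hdegX x hx
    obtain ⟨q, hq⟩ := hdegY y hy
    change E (C.ext x y) ∈ _
    have h1 : E (C.ext x y) = C.ext (x - p • o) (y - q • o') := by
      simp only [E]
      rw [push_fst_ext hq, push_snd_ext hp, ext_smul_left, map_smul, push_snd_ext hp, ext_sub_sub]
      simp only [ext_smul_left, ext_smul_right]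
    rw [h1]
    have h2 : ∀ {Z : 𝒱.Obj} {a b : C.A Z} {t : ℚ}, HasDegree C a t → HasDegree C b 1 →
        HasDegree C (a - t • b) 0 := by
      intro Z a b t ha hb V
      simp only [map_sub, map_smul]
      rw [(ha V).1, (ha V).2, (hb V).1, (hb V).2]
      simp
    obtain ⟨α, hα, h3⟩ := hX.exists_pic (x - p • o)
      (Submodule.sub_mem _ hx (Submodule.smul_mem _ _ ho)) (h2 hp ho1)
    obtain ⟨β, hβ, h4⟩ := hY.exists_pic (y - q • o')
      (Submodule.sub_mem _ hy (Submodule.smul_mem _ _ ho')) (h2 hq ho1')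
    refine Submodule.subset_span ⟨α, β, hα, hβ, ?_⟩
    rw [Fin.sum_univ_one, h3, h4, TheoryData.ext, ← C.pull_comp, ← C.pull_comp]
  | zero =>
    have h1 : E 0 = 0 := by simpa using hEsmul 0 0
    rw [h1]
    exact Submodule.zero_mem _
  | add a b _ _ ha hb => rw [hEadd]; exact Submodule.add_mem _ ha hb
  | smul t a _ ha => rw [hEsmul]; exact Submodule.smul_mem _ _ ha

/-- The cover of a product of two curves by itself. -/
noncomputable def curveCover {J J' : 𝒱.Obj} [hJ : GroupLaw J] [hJ' : GroupLaw J'] {j : X ⟶ J}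
    {j' : Y ⟶ J'} (hX : IsJacobian C j) (hY : IsJacobian C j') (hs : SpannedByProducts C X Y) :
    ProductCover C (X.prod Y) where
  T := X.prod Y
  π := 𝟙 _
  r := 1
  A := fun _ => J
  B := fun _ => J'
  grpA := fun _ => hJ
  grpB := fun _ => hJ'
  m := fun _ => 1
  u := fun _ _ => fst X Y ≫ j
  v := fun _ _ => snd X Y ≫ j'
  cover := ⟨1, one_ne_zero, by rw [one_smul]; exact C.push_id _⟩
  gen := fun a ha => by
    have h1 := gen_curves hX hY hs a ha
    have h2 : C.up (𝟙 (X.prod Y)) a = a := C.pull_id _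
    rw [h2]
    refine Submodule.span_mono ?_ h1
    rintro c ⟨α, β, hα, hβ, h⟩
    exact ⟨0, α, β, hα, hβ, h⟩

theorem main_curves {J J' : 𝒱.Obj} [GroupLaw J] [GroupLaw J'] {j : X ⟶ J} {j' : Y ⟶ J'}
    (hX : IsJacobian C j) (hY : IsJacobian C j') (hs : SpannedByProducts C X Y) {n : ℕ}
    (hn : J.dim * J'.dim < n) {pr : Fin n → (P ⟶ X.prod Y)} (hP : IsPow pr)
    (a : Fin n → C.A (X.prod Y)) (ha : ∀ j, InAlbKer C (a j)) : altProd C pr a = 0 :=
  main (curveCover hX hY hs) (by
    rw [ProductCover.genus]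
    have h1 : ∑ i : Fin 1, J.dim * J'.dim = J.dim * J'.dim := Fin.sum_univ_one _
    exact lt_of_eq_of_lt h1 hn) hP a ha

end Pool.Agent.Y152.VC
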