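import Pool.Agent.Y152.AS.Defs
import Pool.Agent.Y110.Pow

/-!
# Alternating sums of zero-cycles on powers of surfaces: definitions
-/

open CategoryTheory AlgebraicGeometry

universe u v w

namespace Pool.Agent.Y152.VC

open Pool.Agent.H914 Pool.Agent.H914.VarClass Pool.Agent.H914.VarClass.Obj Pool.Agent.W492.BB
  Pool.Agent.W550.Corr Pool.Agent.TH133 Pool.Agent.Y152.AS

variable {k : Type u} [Field k] {𝒱 : VarClass k} (C : TheoryData.{u, v, 0} 𝒱 ℚ)

/-- `α ∈ CH^1(A)_ℚ` lies in `Pic^0(A)_ℚ`, `A` an abelian variety: `(x + y)^* α = x^* α + y^* α`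
for all morphisms `x`, `y` to `A`. -/
structure IsPicZero {A : 𝒱.Obj} [GroupLaw A] (α : C.A A) : Prop where
  deg : C.Deg 1 α
  add : ∀ (X : 𝒱.Obj) (x y : X ⟶ A), C.up (x + y) α = C.up x α + C.up y α

/-- The exterior product `a_1 × ... × a_n = pr_1^* a_1 ... pr_n^* a_n` on the power `P` of `S` with
the projections `pr_j`. -/
noncomputable def extProd {S P : 𝒱.Obj} {n : ℕ} (pr : Fin n → (P ⟶ S)) (a : Fin n → C.A S) :
    C.A P := (List.ofFn fun j => C.up (pr j) (a j)).prod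

/-- The alternating sum `∑_σ sgn(σ) a_{σ(1)} × ... × a_{σ(n)}`. -/
noncomputable def altProd {S P : 𝒱.Obj} {n : ℕ} (pr : Fin n → (P ⟶ S)) (a : Fin n → C.A S) :
    C.A P := ∑ σ : Equiv.Perm (Fin n), ((Equiv.Perm.sign σ : ℤˣ) : ℤ) • extProd C pr (fun j => a (σ j))

/-- A cover of the surface `S` of product type: a generically finite morphism `π : T ⟶ S`, finitely
many pairs `A_i`, `B_i` of abelian varieties and families `u_{i,m} : T ⟶ A_i`,
`v_{i,m} : T ⟶ B_i` of morphisms, such that `π^* a`, for `a` in the Albanese kernel of `S`, is a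
linear combination of classes `∑_m u_{i,m}^* α · v_{i,m}^* β`, `α ∈ Pic^0(A_i)_ℚ`,
`β ∈ Pic^0(B_i)_ℚ`. -/
structure ProductCover (S : 𝒱.Obj) where
  /-- the variety `T` -/
  T : 𝒱.Obj
  /-- the morphism `π` -/
  π : T ⟶ S
  /-- the number of pairs of abelian varieties -/
  r : ℕ
  /-- the abelian varieties `A_i` -/
  A : Fin r → 𝒱.Obj
  /-- the abelian varieties `B_i` -/
  B : Fin r → 𝒱.Obj
  [grpA : ∀ i, GroupLaw (A i)]
  [grpB : ∀ i, GroupLaw (B i)]
  /-- the sizes of the families -/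
  m : Fin r → ℕ
  /-- the morphisms `u_{i,m}` -/
  u : ∀ i, Fin (m i) → (T ⟶ A i)
  /-- the morphisms `v_{i,m}` -/
  v : ∀ i, Fin (m i) → (T ⟶ B i)
  cover : ∃ N : ℚ, N ≠ 0 ∧ C.down π 1 = N • 1
  gen : ∀ a : C.A S, InAlbKer C a → C.up π a ∈ Submodule.span ℚ
    {c | ∃ (i : Fin r) (α : C.A (A i)) (β : C.A (B i)), IsPicZero C α ∧ IsPicZero C β ∧
      c = ∑ j, C.mul (C.up (u i j) α) (C.up (v i j) β)}

attribute [instance] ProductCover.grpA ProductCover.grpB

variable {C}

/-- The number `∑_i dim A_i dim B_i`. -/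
def ProductCover.genus {S : 𝒱.Obj} (D : ProductCover C S) : ℕ := ∑ i, (D.A i).dim * (D.B i).dim

/-- `j : X ⟶ J` is a morphism from the curve `X` to its Jacobian: every divisor class of degree
zero on `X` is the pull-back of a class in `Pic^0(J)_ℚ`. -/
structure IsJacobian (C : TheoryData.{u, v, 0} 𝒱 ℚ) {X J : 𝒱.Obj} [GroupLaw J] (j : X ⟶ J) :
    Prop where
  dim_eq : X.dim = 1
  exists_pic : ∀ z : C.A X, C.Deg 1 z → HasDegree C z 0 → ∃ α : C.A J, IsPicZero C α ∧ z = C.up j α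

variable (C)

/-- The zero-cycles on `X × Y`, for curves `X` and `Y`, are linear combinations of exterior products
`x × y` of zero-cycles (for example of points). -/
def SpannedByProducts (X Y : 𝒱.Obj) : Prop :=
  ∀ z : C.A (X.prod Y), C.Deg 2 z → z ∈ Submodule.span ℚ
    {c | ∃ (x : C.A X) (y : C.A Y), C.Deg 1 x ∧ C.Deg 1 y ∧
      c = C.mul (C.up (fst X Y) x) (C.up (snd X Y) y)}

end Pool.Agent.Y152.VC
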