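import Pool.Agent.Y152.VC.Defs
import Pool.Agent.Y152.VC.Alg
import Pool.Agent.Y152.AS.Grp

/-!
# Alternating sums of zero-cycles on powers of surfaces: vanishing
-/

open CategoryTheory AlgebraicGeometry

universe u v w

namespace Pool.Agent.Y152.VC

open Pool.Agent.H914 Pool.Agent.H914.VarClass Pool.Agent.H914.VarClass.Obj Pool.Agent.W492.BB
  Pool.Agent.W550.Corr Pool.Agent.TH133 Pool.Agent.Y152.AS Pool.Agent.Y110

set_option linter.unusedSectionVars false

variable {k : Type u} [Field k] {𝒱 : VarClass k} {C : TheoryData.{u, v, 0} 𝒱 ℚ}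
  [hC : IsChowProj C] {S T P W X Y : 𝒱.Obj}

section pic

variable {A : 𝒱.Obj} [GroupLaw A]

/-- `Pic^0(A)` -/
def picZ (C : TheoryData.{u, v, 0} 𝒱 ℚ) (A : 𝒱.Obj) [GroupLaw A] : AddSubgroup (C.A A) where
  carrier := {α | IsPicZero C α}
  zero_mem' := ⟨Submodule.zero_mem _, fun X x y => by
    change C.pull _ 0 = C.pull _ 0 + C.pull _ 0
    rw [map_zero, map_zero, map_zero, add_zero]⟩
  add_mem' := fun {a b} ha hb => ⟨Submodule.add_mem _ ha.deg hb.deg, fun X x y => by
    have h1 := ha.add X x y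
    have h2 := hb.add X x y
    change C.pull _ a = C.pull _ a + C.pull _ a at h1
    change C.pull _ b = C.pull _ b + C.pull _ b at h2
    change C.pull _ (a + b) = C.pull _ (a + b) + C.pull _ (a + b)
    rw [map_add, map_add, map_add, h1, h2]; abel⟩
  neg_mem' := fun {a} ha => ⟨Submodule.neg_mem _ ha.deg, fun X x y => by
    have h1 := ha.add X x y
    change C.pull _ a = C.pull _ a + C.pull _ a at h1
    change C.pull _ (-a) = C.pull _ (-a) + C.pull _ (-a)
    rw [map_neg, map_neg, map_neg, h1]; abel⟩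

lemma pow_mem (x : C.A X) (hx : x ∈ C.gr X 1) (n : ℕ) : x ^ n ∈ C.gr X n := by
  induction n with
  | zero => rw [pow_zero]; exact C.one_mem X
  | succ n ih =>
    rw [pow_succ]
    have := C.mul_mem ih hx
    exact_mod_cast this

lemma pic_pow (α : picZ C A) (x : W ⟶ A) : C.pull x α.1 ^ (A.dim + 1) = 0 := by
  rw [← map_pow]
  have h1 := pow_mem α.1 α.2.deg (A.dim + 1)
  rw [hC.gr_top A _ _ h1 (by push_cast; omega), map_zero]

/-- The pull-back `x^* α` as a biadditive map. -/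
noncomputable def pairing (A W : 𝒱.Obj) [GroupLaw A] :
    letI := chRing C W
    picZ C A →+ (W ⟶ A) →+ C.A W :=
  letI := chRing C W
  AddMonoidHom.mk' (fun α => AddMonoidHom.mk' (fun x => C.pull x α.1) (fun x y => α.2.add W x y))
    (fun α β => by
      ext x
      exact map_add (C.pull x) α.1 β.1)

end pic

lemma extProd_eq {n : ℕ} (pr : Fin n → (P ⟶ S)) (a : Fin n → C.A S) :
    letI := chRing C P
    extProd C pr a = ∏ j, C.pull (pr j) (a j) := by
  let _ := chRing C P
  exact List.prod_ofFn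

/-- The alternating sum is a determinant. -/
lemma altProd_eq {n : ℕ} (pr : Fin n → (P ⟶ S)) (a : Fin n → C.A S) :
    letI := chRing C P
    altProd C pr a = ∑ σ : Equiv.Perm (Fin n), (Equiv.Perm.sign σ : ℤ) •
      ∏ i, C.pull (pr (σ i)) (a i) := by
  let _ := chRing C P
  rw [altProd]
  refine Fintype.sum_equiv (Equiv.inv _) _ _ fun σ => ?_
  rw [Equiv.inv_apply, Equiv.Perm.sign_inv, extProd_eq]
  congr 1
  refine Fintype.prod_equiv σ _ _ fun j => ?_
  rw [show σ⁻¹ (σ j) = j from σ.symm_apply_apply j]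

/-- The classes `∑_j u_j^* α · v_j^* β` for one pair of abelian varieties. -/
def Gen {A B : 𝒱.Obj} [GroupLaw A] [GroupLaw B] {m : ℕ} (u : Fin m → (T ⟶ A))
    (v : Fin m → (T ⟶ B)) (c : C.A T) : Prop :=
  ∃ (α : C.A A) (β : C.A B), IsPicZero C α ∧ IsPicZero C β ∧
    c = ∑ j, C.mul (C.up (u j) α) (C.up (v j) β)

/-- The alternating sum vanishes if more than `dim A dim B` of the classes are of the type
`∑_j u_j^* α · v_j^* β`. -/
lemma det_gen {A B : 𝒱.Obj} [GroupLaw A] [GroupLaw B] {m n : ℕ} (u : Fin m → (T ⟶ A))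
    (v : Fin m → (T ⟶ B)) (q : Fin n → (P ⟶ T)) (c : Fin n → C.A T) (I : Finset (Fin n))
    (hI : A.dim * B.dim + 1 ≤ I.card) (hc : ∀ i ∈ I, Gen u v (c i)) :
    altProd C q c = 0 := by
  classical
  let _ := chRing C P
  rw [altProd_eq]
  have h0 : ∀ i, ∃ (α : picZ C A) (β : picZ C B), i ∈ I →
      c i = ∑ j, C.mul (C.up (u j) α.1) (C.up (v j) β.1) := by
    intro i
    by_cases hi : i ∈ I
    · obtain ⟨α, β, hα, hβ, h⟩ := hc i hi
      exact ⟨⟨α, hα⟩, ⟨β, hβ⟩, fun _ => h⟩
    · exact ⟨0, 0, fun h => absurd h hi⟩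
  choose α β h using h0
  have h1 : ∀ (α : picZ C A) (x : P ⟶ A), pairing A P α x ^ (A.dim + 1) = 0 := pic_pow
  have h2 : ∀ (β : picZ C B) (x : P ⟶ B), pairing B P β x ^ (B.dim + 1) = 0 := pic_pow
  have h3 : ∀ i ∈ I, ∀ j, C.pull (q j) (c i) =
      ∑ t, pairing A P (α i) (q j ≫ u t) * pairing B P (β i) (q j ≫ v t) := by
    intro i hi j
    rw [h i hi, map_sum]
    refine Finset.sum_congr rfl fun t _ => ?_
    refine (map_mul (C.pull (q j)) _ _).trans ?_
    rw [← C.pull_comp, ← C.pull_comp]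
    rfl
  exact det_zero_pairing (pairing A P) (pairing B P) h1 h2 hI α β (fun t j => q j ≫ u t)
    (fun t j => q j ≫ v t) (fun i j => C.pull (q j) (c i)) h3

end Pool.Agent.Y152.VC
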