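import Pool.Agent.Y152.VC.Geo

/-!
# Alternating sums of zero-cycles on powers of surfaces: the main theorem
-/

open CategoryTheory AlgebraicGeometry

universe u v w

namespace Pool.Agent.Y152.VC

open Pool.Agent.H914 Pool.Agent.H914.VarClass Pool.Agent.H914.VarClass.Obj Pool.Agent.W492.BB
  Pool.Agent.W550.Corr Pool.Agent.TH133 Pool.Agent.Y152.AS Pool.Agent.Y110

set_option linter.unusedSectionVars false

section multi

variable {M N : Type*} [AddCommGroup M] [Module ℚ M] [AddCommGroup N] [Module ℚ N] {n : ℕ}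

/-- A multilinear map which vanishes on a set vanishes on its span. -/
lemma multi_span (f : MultilinearMap ℚ (fun _ : Fin n => M) N) (G : Set M)
    (h : ∀ c : Fin n → M, (∀ i, c i ∈ G) → f c = 0) (c : Fin n → M)
    (hc : ∀ i, c i ∈ Submodule.span ℚ G) : f c = 0 := by
  classical
  have key : ∀ (s : Finset (Fin n)) (c : Fin n → M), (∀ i ∈ s, c i ∈ Submodule.span ℚ G) →
      (∀ i, i ∉ s → c i ∈ G) → f c = 0 := by
    intro s
    induction s using Finset.induction_on with
    | empty => exact fun c _ h2 => h c fun i => h2 i (Finset.notMem_empty i)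
    | insert a s ha ih =>
      intro c h1 h2
      have h3 : ∀ x ∈ Submodule.span ℚ G, f (Function.update c a x) = 0 := by
        intro x hx
        induction hx using Submodule.span_induction with
        | mem x hx =>
          refine ih _ (fun i hi => ?_) (fun i hi => ?_)
          · have h4 : i ≠ a := fun h5 => ha (h5 ▸ hi)
            rw [Function.update_of_ne h4]
            exact h1 i (Finset.mem_insert_of_mem hi)
          · by_cases h4 : i = a
            · subst h4
              rw [Function.update_self]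
              exact hx
            · rw [Function.update_of_ne h4]
              exact h2 i fun h5 => (Finset.mem_insert.1 h5).elim h4 hi
        | zero => exact f.map_update_zero c a
        | add x y _ _ hx hy => rw [f.map_update_add, hx, hy, add_zero]
        | smul t x _ hx => rw [f.map_update_smul, hx, smul_zero]
      have h4 := h3 (c a) (h1 a (Finset.mem_insert_self a s))
      rwa [Function.update_eq_self] at h4
  exact key Finset.univ c (fun i _ => hc i) fun i hi => absurd (Finset.mem_univ i) hi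

end multi

variable {k : Type u} [Field k] {𝒱 : VarClass k} {C : TheoryData.{u, v, 0} 𝒱 ℚ}
  [hC : IsChowProj C] {S T P Q W X Y : 𝒱.Obj}

/-- The alternating sum as a multilinear map. -/
lemma exists_multi {n : ℕ} (q : Fin n → (P ⟶ T)) :
    ∃ f : MultilinearMap ℚ (fun _ : Fin n => C.A T) (C.A P), ∀ c, f c = altProd C q c := by
  let _ := chRing C P
  refine ⟨∑ σ : Equiv.Perm (Fin n), (Equiv.Perm.sign σ : ℤ) •
    ((MultilinearMap.mkPiAlgebra ℚ (Fin n) (C.A P)).compLinearMap
      (fun i => (C.pull (q (σ i))).toLinearMap)), fun c => ?_⟩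
  rw [altProd_eq, MultilinearMap.sum_apply]
  rfl

/-- The alternating sum vanishes if the classes are in the span of the classes
`∑_j u_{i,j}^* α · v_{i,j}^* β` and their number is bigger than `∑_i dim A_i dim B_i`. -/
lemma alt_span {r : ℕ} (A B : Fin r → 𝒱.Obj) [∀ i, GroupLaw (A i)] [∀ i, GroupLaw (B i)]
    (m : Fin r → ℕ) (u : ∀ i, Fin (m i) → (T ⟶ A i)) (v : ∀ i, Fin (m i) → (T ⟶ B i)) {n : ℕ}
    (hn : ∑ i, (A i).dim * (B i).dim < n) (q : Fin n → (P ⟶ T)) (c : Fin n → C.A T)
    (hc : ∀ j, c j ∈ Submodule.span ℚ {c | ∃ i, Gen (u i) (v i) c}) : altProd C q c = 0 := by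
  classical
  obtain ⟨f, hf⟩ := exists_multi (C := C) q
  rw [← hf]
  refine multi_span f _ (fun c hc => ?_) c hc
  rw [hf]
  choose t ht using hc
  -- the pigeonhole principle
  have h1 : ∃ i ∈ Finset.univ, (A i).dim * (B i).dim <
      (Finset.univ.filter fun j => t j = i).card := by
    apply Finset.exists_lt_of_sum_lt
    have h2 := Finset.card_eq_sum_card_fiberwise (s := (Finset.univ : Finset (Fin n)))
      (t := (Finset.univ : Finset (Fin r))) (f := t) (fun _ _ => Finset.mem_coe.2 (Finset.mem_univ _))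
    rw [← h2, Finset.card_univ, Fintype.card_fin]
    exact hn
  obtain ⟨i, -, hi⟩ := h1
  refine det_gen (u i) (v i) q c (Finset.univ.filter fun j => t j = i) hi fun j hj => ?_
  have h2 := (Finset.mem_filter.1 hj).2
  have h3 := ht j
  rw [h2] at h3
  exact h3

lemma extProd_succ {n : ℕ} (pr : Fin n → (P ⟶ S)) (a : Fin (n + 1) → C.A S) :
    extProd C (consPr pr) a = C.ext (a 0) (extProd C pr fun j => a j.succ) := by
  rw [extProd, List.ofFn_succ, List.prod_cons, TheoryData.ext, extProd, map_list_prod,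
    List.map_ofFn]
  congr 3
  funext j
  change C.pull (snd S P ≫ pr j) (a j.succ) = _
  rw [C.pull_comp]
  rfl

/-- Powers of morphisms and exterior products. -/
lemma exists_pow (π : T ⟶ S) (n : ℕ) : ∃ (P Q : 𝒱.Obj) (pr : Fin (n + 1) → (P ⟶ S))
    (qr : Fin (n + 1) → (Q ⟶ T)) (φ : Q ⟶ P), IsPow pr ∧
      ∀ c : Fin (n + 1) → C.A T, C.push φ (extProd C qr c) =
        extProd C pr (fun j => C.push π (c j)) := by
  induction n with
  | zero =>
    refine ⟨S, T, fun _ => 𝟙 S, fun _ => 𝟙 T, π, isPow_one S, fun c => ?_⟩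
    simp only [extProd, List.ofFn_succ, List.ofFn_zero, List.prod_cons, List.prod_nil, mul_one]
    rw [show C.up (𝟙 T) (c 0) = c 0 from C.pull_id _,
      show C.up (𝟙 S) (C.push π (c 0)) = C.push π (c 0) from C.pull_id _]
  | succ n ih =>
    obtain ⟨P, Q, pr, qr, φ, h1, h2⟩ := ih
    refine ⟨S.prod P, T.prod Q, consPr pr, consPr qr, prodMap π φ, h1.succ, fun c => ?_⟩
    rw [extProd_succ, push_ext, h2, extProd_succ]

lemma pull_altProd {n : ℕ} (pr : Fin n → (P ⟶ S)) (f : Q ⟶ P) (a : Fin n → C.A S) :
    C.pull f (altProd C pr a) = altProd C (fun j => f ≫ pr j) a := by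
  rw [altProd, altProd, map_sum]
  refine Finset.sum_congr rfl fun σ _ => ?_
  rw [map_zsmul, extProd, extProd, map_list_prod, List.map_ofFn]
  congr 3
  funext j
  exact (C.pull_comp f (pr j) (a (σ j))).symm

/-- The alternating sum vanishes on one power if it vanishes on another. -/
lemma altProd_zero_of {n : ℕ} {pr : Fin n → (P ⟶ S)} (h : IsPow pr) {pr' : Fin n → (Q ⟶ S)}
    (h' : IsPow pr') {a : Fin n → C.A S} (h0 : altProd C pr' a = 0) : altProd C pr a = 0 := by
  obtain ⟨g, hg⟩ := h'.exists_lift P pr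
  have h1 := pull_altProd (C := C) pr' g a
  rw [h0, map_zero] at h1
  rw [h1]
  congr 1
  funext j
  exact (hg j).symm

theorem main (D : ProductCover C S) {n : ℕ} (hn : D.genus < n) {pr : Fin n → (P ⟶ S)}
    (hP : IsPow pr) (a : Fin n → C.A S) (ha : ∀ j, InAlbKer C (a j)) : altProd C pr a = 0 := by
  obtain ⟨n, rfl⟩ : ∃ m, n = m + 1 := ⟨n - 1, by omega⟩
  obtain ⟨N, hN, hpush⟩ := D.cover
  obtain ⟨P', Q, pr', qr, φ, h1, h2⟩ := exists_pow (C := C) D.π n
  refine altProd_zero_of hP h1 ?_
  -- the classes on `T`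
  set c : Fin (n + 1) → C.A D.T := fun j => N⁻¹ • C.pull D.π (a j) with hc
  have h3 : ∀ j, C.push D.π (c j) = a j := by
    intro j
    have h4 : C.push D.π (C.pull D.π (a j)) = N • a j := by
      have h5 := C.proj_right D.π 1 (a j)
      rw [one_mul] at h5
      rw [h5]
      have h6 : C.push D.π 1 = N • (1 : C.A S) := hpush
      rw [h6, smul_mul_assoc, one_mul]
    simp only [hc]
    rw [map_smul, h4, smul_smul, inv_mul_cancel₀ hN, one_smul]
  have h4 : altProd C qr c = 0 := by
    refine alt_span D.A D.B D.m D.u D.v hn qr c fun j => Submodule.smul_mem _ _ ?_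
    have h5 := D.gen (a j) (ha j)
    refine Submodule.span_mono ?_ h5
    rintro c ⟨i, α, β, hα, hβ, h⟩
    exact ⟨i, α, β, hα, hβ, h⟩
  have h5 : C.push φ (altProd C qr c) = altProd C pr' a := by
    rw [altProd, altProd, map_sum]
    refine Finset.sum_congr rfl fun σ _ => ?_
    rw [map_zsmul, h2]
    congr 2
    funext j
    exact h3 (σ j)
  rw [← h5, h4, map_zero]

end Pool.Agent.Y152.VC
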